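import Mathlib
import Pool.Agent.X23.PTC4

/-!
# The positive Toeplitz completion class is not stable under matrix amplification
-/

open Matrix Filter Topology
open scoped ComplexOrder ComplexConjugate InnerProductSpace

namespace Pool.Agent.Results.MP_a15892_an.MatrixAmplification

open Pool.Agent.X23.PTC

/-- the base algebra: convergent sequences -/
abbrev A : Type := C(OnePoint ℕ, ℂ)

theorem lim_r : Tendsto (fun n : ℕ => ((1 / ((n : ℝ) + 1) : ℝ) : ℂ)) atTop (𝓝 0) := by
  have h2 : Tendsto (fun n : ℕ => ((1 / ((n : ℝ) + 1) : ℝ) : ℂ)) atTop (𝓝 ((0 : ℝ) : ℂ)) :=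
    (Complex.continuous_ofReal.tendsto _).comp tendsto_one_div_add_atTop_nhds_zero_nat
  simpa using h2

theorem lim_h : Tendsto (fun n : ℕ => (-1 : ℂ) ^ n * ((1 / ((n : ℝ) + 1) : ℝ) : ℂ)) atTop
    (𝓝 0) := by
  rw [tendsto_zero_iff_norm_tendsto_zero]
  have := lim_r.norm
  simpa using this

/-- `r(n) = 1/(n+1)` -/
noncomputable def r : A := OnePoint.continuousMapMkNat _ 0 lim_r

/-- `h(n) = (-1)^n/(n+1)` -/
noncomputable def h : A := OnePoint.continuousMapMkNat _ 0 lim_h

theorem r_nat (n : ℕ) : r (n : OnePoint ℕ) = ((1 / ((n : ℝ) + 1) : ℝ) : ℂ) := rfl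

theorem h_nat (n : ℕ) : h (n : OnePoint ℕ) = (-1 : ℂ) ^ n * ((1 / ((n : ℝ) + 1) : ℝ) : ℂ) := rfl

theorem r_inf : r OnePoint.infty = 0 := rfl

theorem h_inf : h OnePoint.infty = 0 := rfl

theorem star_r : star r = r := by
  ext x
  induction x using OnePoint.rec with
  | infty => simp [r_inf]
  | coe n =>
    change conj (r n) = r n
    rw [r_nat, Complex.conj_ofReal]

theorem h_mul : star h * h = r * r := by
  ext x
  induction x using OnePoint.rec with
  | infty => simp [r_inf, h_inf]
  | coe n =>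
    change conj (h n) * h n = r n * r n
    rw [h_nat, r_nat, map_mul, map_pow, map_neg, map_one, Complex.conj_ofReal]
    have : ((-1 : ℂ)) ^ n * (-1) ^ n = 1 := by
      rw [← mul_pow]; simp
    linear_combination ((1 / ((n : ℝ) + 1) : ℝ) : ℂ) * ((1 / ((n : ℝ) + 1) : ℝ) : ℂ) * this

/-- the amplified algebra -/
abbrev R : Type := Matrix (Fin 2) (Fin 2) A

/-- the data -/
noncomputable def a (l : ℤ) : R :=
  if l = 0 then !![1, 0; 0, r * r] else if l = 1 then !![0, r; h, 0] else
    if l = -1 then !![0, star h; r, 0] else 0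

theorem data_pos : ∃ B : Matrix (Fin 2) (Fin 2) R, toep 2 a = Bᴴ * B := by
  refine ⟨!![!![1, 0; 0, r], !![0, star h; 1, 0]; 0, 0], ?_⟩
  ext i j : 1
  fin_cases i <;> fin_cases j
  · simp only [toep, a, of_apply, Matrix.mul_apply, Fin.sum_univ_two, conjTranspose_apply]
    ext b c : 1
    fin_cases b <;> fin_cases c <;>
      simp [Matrix.mul_apply, Fin.sum_univ_two, star_r, Matrix.star_apply]
  · simp only [toep, a, of_apply, Matrix.mul_apply, Fin.sum_univ_two, conjTranspose_apply]
    ext b c : 1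
    fin_cases b <;> fin_cases c <;>
      simp [Matrix.mul_apply, Fin.sum_univ_two, star_r, Matrix.star_apply]
  · simp only [toep, a, of_apply, Matrix.mul_apply, Fin.sum_univ_two, conjTranspose_apply]
    ext b c : 1
    fin_cases b <;> fin_cases c <;>
      simp [Matrix.mul_apply, Fin.sum_univ_two, star_r, Matrix.star_apply]
  · simp only [toep, a, of_apply, Matrix.mul_apply, Fin.sum_univ_two, conjTranspose_apply]
    ext b c : 1
    fin_cases b <;> fin_cases c <;>
      simp [Matrix.mul_apply, Fin.sum_univ_two, star_r, Matrix.star_apply, mul_comm h, h_mul]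

theorem eq_smul {E : Type*} [NormedAddCommGroup E] [InnerProductSpace ℂ E] {p q : E} {c : ℂ}
    (hq : (inner ℂ q q : ℂ) = conj c * c) (hp : (inner ℂ p p : ℂ) = 1)
    (hqp : (inner ℂ q p : ℂ) = conj c) : q = c • p := by
  have hpq : (inner ℂ p q : ℂ) = c := by
    rw [← inner_conj_symm, hqp, Complex.conj_conj]
  have h0 : (inner ℂ (q - c • p) (q - c • p) : ℂ) = 0 := by
    rw [inner_sub_left, inner_sub_right, inner_sub_right, inner_smul_left, inner_smul_right,
      inner_smul_left, inner_smul_right, hq, hqp, hpq, hp]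
    ring
  exact sub_eq_zero.mp (inner_self_eq_zero.mp h0)

theorem not_ptc : ¬ PTC R := by
  intro hP
  obtain ⟨y, hy, C, hC⟩ := hP 2 3 (by norm_num) (by norm_num) a data_pos
  have hy0 : y 0 = !![1, 0; 0, r * r] := by
    rw [hy 0 (by norm_num)]; rfl
  have hy1 : y 1 = !![0, r; h, 0] := by
    rw [hy 1 (by norm_num)]; rfl
  -- pointwise relation
  have key : ∀ x : OnePoint ℕ, r x * (y 2 0 0) x = h x := by
    intro x
    let P : Fin 3 → Fin 2 → EuclideanSpace ℂ (Fin 3 × Fin 2) := fun i b =>
      WithLp.toLp 2 (fun lc => C lc.1 i lc.2 b x)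
    have hin : ∀ (i j : Fin 3) (b c : Fin 2),
        (inner ℂ (P i b) (P j c) : ℂ) = (y ((i : ℤ) - j) b c) x := by
      intro i j b c
      have h1 := congrArg (fun f : A => f x) (congrFun (congrFun (congrFun (congrFun hC i) j) b) c)
      simp only [toep, of_apply] at h1
      rw [h1, PiLp.inner_apply, Matrix.mul_apply]
      simp only [P, conjTranspose_apply]
      rw [Matrix.sum_apply]
      rw [ContinuousMap.sum_apply, Fintype.sum_prod_type]
      refine Finset.sum_congr rfl ?_
      intro l _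
      rw [Matrix.mul_apply, ContinuousMap.sum_apply]
      refine Finset.sum_congr rfl ?_
      intro d _
      rw [Matrix.star_apply]
      simp [mul_comm]
    have hrr : conj (r x) = r x := by
      have := congrArg (fun f : A => f x) star_r
      exact this
    have hhh : conj (h x) * h x = r x * r x := by
      have := congrArg (fun f : A => f x) h_mul
      exact this
    have n0 : ∀ i, (inner ℂ (P i 0) (P i 0) : ℂ) = 1 := by
      intro i
      rw [hin, sub_self, hy0]
      rfl
    have n1 : ∀ i, (inner ℂ (P i 1) (P i 1) : ℂ) = r x * r x := by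
      intro i
      rw [hin, sub_self, hy0]
      rfl
    have a1 : (inner ℂ (P 1 1) (P 0 0) : ℂ) = h x := by
      rw [hin]
      have : ((1 : Fin 3) : ℤ) - ((0 : Fin 3) : ℤ) = 1 := by decide
      rw [this, hy1]
      rfl
    have a2 : (inner ℂ (P 2 0) (P 1 1) : ℂ) = r x := by
      rw [hin]
      have : ((2 : Fin 3) : ℤ) - ((1 : Fin 3) : ℤ) = 1 := by decide
      rw [this, hy1]
      rfl
    have e1 : P 1 1 = conj (h x) • P 0 0 := by
      apply eq_smul
      · rw [n1, Complex.conj_conj, ← hhh, mul_comm]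
      · exact n0 0
      · rw [a1, Complex.conj_conj]
    have e2 : P 1 1 = r x • P 2 0 := by
      apply eq_smul
      · rw [n1, hrr]
      · exact n0 2
      · rw [← inner_conj_symm, a2]
    have a3 : (inner ℂ (P 2 0) (P 0 0) : ℂ) = (y 2 0 0) x := by
      rw [hin]
      have : ((2 : Fin 3) : ℤ) - ((0 : Fin 3) : ℤ) = 2 := by decide
      rw [this]
    rw [← a3, ← hrr, ← inner_smul_left, ← e2, e1, inner_smul_left, n0, mul_one,
      Complex.conj_conj]
  -- the contradiction at infinity
  set f : A := y 2 0 0 with hf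
  have hfn : ∀ n : ℕ, f (n : OnePoint ℕ) = (-1) ^ n := by
    intro n
    have h1 := key n
    rw [r_nat, h_nat] at h1
    have h2 : ((1 / ((n : ℝ) + 1) : ℝ) : ℂ) ≠ 0 := by
      have : (0 : ℝ) < 1 / ((n : ℝ) + 1) := by positivity
      exact_mod_cast this.ne'
    apply mul_left_cancel₀ h2
    rw [h1, mul_comm]
  have hlim : Tendsto (fun n : ℕ => f (n : OnePoint ℕ)) atTop (𝓝 (f OnePoint.infty)) :=
    (OnePoint.continuous_iff_from_nat _).mp f.continuous
  have h1 : Tendsto (fun n : ℕ => f ((2 * n : ℕ) : OnePoint ℕ)) atTop (𝓝 (f OnePoint.infty)) :=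
    hlim.comp (tendsto_atTop_mono (fun n => by simp only [id]; omega) tendsto_id)
  have h2 : Tendsto (fun n : ℕ => f ((2 * n + 1 : ℕ) : OnePoint ℕ)) atTop
      (𝓝 (f OnePoint.infty)) :=
    hlim.comp (tendsto_atTop_mono (fun n => by simp only [id]; omega) tendsto_id)
  simp only [hfn] at h1 h2
  simp only [pow_mul, pow_succ, pow_zero, one_mul, mul_neg, mul_one, neg_neg, one_pow,
    tendsto_const_nhds_iff] at h1 h2
  rw [← h2] at h1
  norm_num at h1

/-- There are a unital C*-algebra `A` in the class PTC and an `m` such that the matrix algebra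
`M_m(A)` is not in the class. -/
theorem result : ∃ (A : Type) (_ : CStarAlgebra A), PTC A ∧
    ∃ m : ℕ, ¬ PTC (Matrix (Fin m) (Fin m) A) :=
  ⟨A, inferInstance, ptc_CX, 2, not_ptc⟩

end Pool.Agent.Results.MP_a15892_an.MatrixAmplification
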